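import Pool.Agent.N612.BA.Main

/-!
# Minimal Boolean `(𝔪, 0)`-products need not be smallest (MP_27bb78_al, Q1)
-/

namespace Pool.Agent.Results.MP_27bb78_al.NotSmallest

open Set Cardinal Pool.Agent.N612.BA

universe u

/-- The pair of the family `i` and `B` is a Boolean `(κ, 0)`-product of the family `A`. -/
structure IsProductZero {T : Type u} {A : T → Type u} [∀ t, BooleanAlgebra (A t)]
    {B : Type u} [BooleanAlgebra B] (κ : Cardinal.{u})
    (i : ∀ t, BoundedLatticeHom (A t) B) : Prop where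
  /-- `B` is a Boolean `κ`-algebra -/
  isMAlgebra : IsMAlgebra κ B
  /-- each `i t` is a `κ`-isomorphism into `B` -/
  injective : ∀ t, Function.Injective (i t)
  isMHom : ∀ t, IsMHom κ (i t)
  /-- the images are independent -/
  indep : ∀ (T' : Finset T) (a : ∀ t, A t), (∀ t ∈ T', a t ≠ ⊥) →
    (T'.inf fun t => i t (a t)) ≠ ⊥
  /-- the union of the images `κ`-generates `B` -/
  generates : MGenerates κ (⋃ t, range (i t))

/-- The `(κ, 0)`-product is minimal: the finite meets of elements of the factors are dense. -/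
structure IsMinimalZero {T : Type u} {A : T → Type u} [∀ t, BooleanAlgebra (A t)]
    {B : Type u} [BooleanAlgebra B] (κ : Cardinal.{u})
    (i : ∀ t, BoundedLatticeHom (A t) B) : Prop extends IsProductZero κ i where
  dense : ∀ b : B, b ≠ ⊥ → ∃ (T' : Finset T) (a : ∀ t, A t),
    (T'.inf fun t => i t (a t)) ≠ ⊥ ∧ (T'.inf fun t => i t (a t)) ≤ b

/-- For every infinite cardinal `κ` and every nonempty index set `T` there is a family of
non-degenerate Boolean algebras, for which a minimal `(κ, 0)`-product exists, and which has a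
`(κ, 0)`-product that does not lie above any minimal `(κ, 0)`-product. -/
theorem result (κ : Cardinal.{u}) (hκ : ℵ₀ ≤ κ) (T : Type u) [Nonempty T] :
    ∃ (A : T → Type u) (_ : ∀ t, BooleanAlgebra (A t)), (∀ t, Nontrivial (A t)) ∧
      (∃ (M : Type u) (_ : BooleanAlgebra M) (j : ∀ t, BoundedLatticeHom (A t) M),
        IsMinimalZero κ j) ∧
      ∃ (B : Type u) (_ : BooleanAlgebra B) (i : ∀ t, BoundedLatticeHom (A t) B),
        IsProductZero κ i ∧
        ∀ (M : Type u) (_ : BooleanAlgebra M) (j : ∀ t, BoundedLatticeHom (A t) M),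
          IsMinimalZero κ j →
          ¬ ∃ h : BoundedLatticeHom B M, IsMHom κ h ∧ ∀ t a, j t a = h (i t a) := by
  classical
  obtain ⟨t₀⟩ := ‹Nonempty T›
  obtain ⟨A, _, hA, ⟨M, _, j, hj, hjd⟩, B, _, i, hi, hno⟩ :=
    main κ ℵ₀ hκ le_rfl (fun c hc => hc.le.trans hκ) T t₀
  have conv : ∀ {B : Type u} [BooleanAlgebra B] {i : T → BoundedLatticeHom A B},
      IsProduct κ ℵ₀ i → IsProductZero κ i := by
    intro B _ i hi
    refine ⟨hi.isMAlgebra, hi.injective, hi.isMHom, ?_, hi.generates⟩
    intro T' a ha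
    obtain ⟨m, hm, hm0⟩ := hi.indep (T' : Set T)
      (lt_aleph0_iff_set_finite.2 T'.finite_toSet) a ha
    rwa [hm.unique (isGLB_inf T' fun t => i t (a t))] at hm0
  refine ⟨fun _ => A, fun _ => inferInstance, fun _ => hA, ⟨M, inferInstance, j, ?_⟩,
    B, inferInstance, i, conv hi, ?_⟩
  · refine ⟨conv hj, fun b hb => ?_⟩
    obtain ⟨T', a, m, hT', hm, hm0, hmb⟩ := hjd b hb
    have hfin : T'.Finite := lt_aleph0_iff_set_finite.1 hT'
    have h1 : m = (hfin.toFinset.inf fun t => j t (a t)) := by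
      refine hm.unique ?_
      have := isGLB_inf hfin.toFinset fun t => j t (a t)
      rwa [hfin.coe_toFinset] at this
    rw [h1] at hm0 hmb
    exact ⟨hfin.toFinset, a, hm0, hmb⟩
  · intro M _ j hj
    rintro ⟨h, hh, hhj⟩
    refine hno M inferInstance j (hj.injective t₀) ?_ ?_ ⟨h, hh, fun t a => (hhj t a).symm⟩
    · intro T' hT' a ha
      have hfin : T'.Finite := lt_aleph0_iff_set_finite.1 hT'
      refine ⟨hfin.toFinset.inf fun t => j t (a t), ?_, ?_⟩
      · have := isGLB_inf hfin.toFinset fun t => j t (a t)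
        rwa [hfin.coe_toFinset] at this
      · exact hj.indep _ a fun t ht => ha t (hfin.mem_toFinset.1 ht)
    · intro b hb
      obtain ⟨T', a, h0, h1⟩ := hj.dense b hb
      exact ⟨(T' : Set T), a, _, lt_aleph0_iff_set_finite.2 T'.finite_toSet,
        isGLB_inf T' fun t => j t (a t), h0, h1⟩

end Pool.Agent.Results.MP_27bb78_al.NotSmallest
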